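import Mathlib

namespace Pool.Agent.Results.MP_7b4a8e_an.PeriodThree

/-- `x` (with `x n` standing for `x_{n-k}`, `n ≥ 0`) is a positive solution of
`x_{n+1} = A / x_n^2 + 1 / x_{n-k}^p`. -/
def IsSolution (A p : ℝ) (k : ℕ) (x : ℕ → ℝ) : Prop :=
  (∀ n, 0 < x n) ∧ ∀ n, x (n + k + 1) = A / x (n + k) ^ 2 + 1 / x n ^ p

/-- `N` is the prime period of `x`. -/
def HasPrimePeriod (x : ℕ → ℝ) (N : ℕ) : Prop :=
  IsLeast {N : ℕ | 1 ≤ N ∧ ∀ n, x (n + N) = x n} N

/-- For `p = 2`, every `A > 0` with `A ≠ 1` and every `k ≡ 1 (mod 3)` there is a positive solution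
of prime period three.  In particular the answer to Q1 is yes. -/
theorem result (A : ℝ) (hA : 0 < A) (hA1 : A ≠ 1) (j : ℕ) :
    ∃ x : ℕ → ℝ, IsSolution A 2 (3 * j + 1) x ∧ HasPrimePeriod x 3 := by
  obtain ⟨r, hr⟩ : ∃ r, r = 1 / A := ⟨_, rfl⟩
  have hr0 : 0 < r := by rw [hr]; positivity
  have hAr : A = 1 / r := by rw [hr]; field_simp
  have hr1 : r ≠ 1 := by
    intro h; apply hA1; rw [hAr, h]; norm_num
  obtain ⟨a, ha0, ha⟩ : ∃ a : ℝ, 0 < a ∧ a ^ 3 = (r ^ 3 + 1) / r ^ 5 := by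
    refine ⟨((r ^ 3 + 1) / r ^ 5) ^ (1 / 3 : ℝ), by positivity, ?_⟩
    rw [← Real.rpow_natCast, ← Real.rpow_mul (by positivity)]
    norm_num
  have ha' : a ^ 3 * r ^ 5 = r ^ 3 + 1 := by rw [ha]; field_simp
  refine ⟨fun n => a * r ^ (n % 3), ⟨fun n => by positivity, fun n => ?_⟩, ⟨by norm_num, ?_⟩, ?_⟩
  · simp only [Real.rpow_ofNat]
    rw [show n + (3 * j + 1) + 1 = (n + 2) + 3 * j by ring, Nat.add_mul_mod_self_left,
      show n + (3 * j + 1) = (n + 1) + 3 * j by ring, Nat.add_mul_mod_self_left, hAr]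
    obtain h | h | h : n % 3 = 0 ∨ n % 3 = 1 ∨ n % 3 = 2 := by omega
    · rw [h, show (n + 1) % 3 = 1 by omega, show (n + 2) % 3 = 2 by omega]
      field_simp
      linear_combination ha'
    · rw [h, show (n + 1) % 3 = 2 by omega, show (n + 2) % 3 = 0 by omega]
      field_simp
      linear_combination ha'
    · rw [h, show (n + 1) % 3 = 0 by omega, show (n + 2) % 3 = 1 by omega]
      field_simp
      linear_combination ha'
  · intro n
    simp only
    rw [Nat.add_mod_right]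
  · rintro N ⟨hN1, hN⟩
    by_contra hlt
    rw [not_le] at hlt
    have h0 := hN 0
    simp only [zero_add, Nat.zero_mod, pow_zero, mul_one] at h0
    obtain h | h : N = 1 ∨ N = 2 := by omega
    · rw [h] at h0
      have h1 : a * r = a * 1 := by simpa using h0
      exact hr1 (mul_left_cancel₀ ha0.ne' h1)
    · rw [h] at h0
      have h1 : a * r ^ 2 = a * 1 := by simpa using h0
      have h2 := mul_left_cancel₀ ha0.ne' h1
      apply hr1
      nlinarith

end Pool.Agent.Results.MP_7b4a8e_an.PeriodThree
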